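import Pool.Agent.Helper98.GX.St4
import Pool.Agent.Helper53.CX.M_Ext
import Pool.Agent.Helper53.CX.M_Pad

/-!
# Project GX (MP_140278_ag): module FTR, the torus
-/

set_option autoImplicit false

open scoped BigOperators
open MvPolynomial

namespace Pool.Agent.Helper62.GX

open Pool.Agent.Helper98.GX
open Pool.Agent.Helper53.CX (DivVal LinSys IsNefCartier)

private theorem FTR_ext {K : Type} [Field K] [Algebra ℂ K] (v w : DivVal K)
    (h : v.ord = w.ord) : v = w := by
  cases v
  cases w
  simp only at h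
  subst h
  rfl

private theorem FTR_pad {n : ℕ} (P : Pool.Agent.Helper53.CX.Pn n) (hP : Irreducible P)
    (p : Pool.Agent.Helper53.CX.Pn n) (hp : p ≠ 0) :
    Pool.Agent.Helper53.CX.padOrd P
      (algebraMap (Pool.Agent.Helper53.CX.Pn n) (Pool.Agent.Helper53.CX.Kn n) p) =
        (multiplicity P p : ℤ) := by
  obtain ⟨h1, h2, _⟩ := Pool.Agent.Helper53.CX.hPad n P hP
  exact (Pool.Agent.Helper53.CX.hExt n (fun p => (multiplicity P p : ℤ))
    (fun p q hp hq => by
      have := h1 p q hp hq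
      push_cast [this]
      rfl)
    (fun p q hp hq hpq => by
      have := h2 p q hp hq hpq
      exact_mod_cast this)).2.2.2 p hp

private theorem FTR_aeval {K : Type} [Field K] [Algebra ℂ K] {n : ℕ} (z : Fin n → K)
    (σ : Pool.Agent.Helper53.CX.Kn n ≃ₐ[ℂ] K)
    (hσ : ∀ j, σ (Pool.Agent.Helper53.CX.x j) = z j) (p : Pool.Agent.Helper53.CX.Pn n) :
    σ (algebraMap (Pool.Agent.Helper53.CX.Pn n) (Pool.Agent.Helper53.CX.Kn n) p) =
      aeval z p := by
  have h : ((σ : Pool.Agent.Helper53.CX.Kn n →ₐ[ℂ] K).comp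
      (IsScalarTower.toAlgHom ℂ (Pool.Agent.Helper53.CX.Pn n)
        (Pool.Agent.Helper53.CX.Kn n))) = aeval z := by
    apply MvPolynomial.algHom_ext
    intro j
    rw [aeval_X, ← hσ j]
    rfl
  have h2 := congrArg (fun φ => φ p) h
  exact h2

theorem hFTR (hLPX : StLPX) (hSIG : StSIG) (hPRF : StPRF) (hMNO : StMNO) (hTPR : StTPR) :
    StFTR := by
  intro K _ _ V r B n L Fr S b hS hV hb
  choose β hβ using Fr.surj
  obtain ⟨L', e, hC⟩ := hLPX K V r B n L Fr β hβ
  obtain ⟨σ, hσ⟩ := hSIG K V r B n L Fr β L' e hC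
  obtain ⟨hP1, hP2⟩ := hPRF K V r B n L Fr β L' e hC σ hσ
  have hmono : ∀ v, ordOmega L v = -1 → IsToricIn L'.z v (fun j => v.ord (L'.z j)) := by
    intro v hv
    exact hMNO K n L' σ hσ v (by rw [hC.omega v, hv])
  refine ⟨L'.z, L'.basis.1, ?_, ?_, ?_⟩
  · rw [eq_top_iff]
    intro f _
    have hmem : ∀ p : Pool.Agent.Helper53.CX.Pn n,
        aeval L'.z p ∈ IntermediateField.adjoin ℂ (Set.range L'.z) := by
      intro p
      apply IntermediateField.algebra_adjoin_le_adjoin
      rw [Algebra.adjoin_range_eq_range_aeval]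
      exact ⟨p, rfl⟩
    obtain ⟨p, q, _, hpq⟩ := IsFractionRing.div_surjective
      (A := Pool.Agent.Helper53.CX.Pn n) (σ.symm f)
    have hf : f = aeval L'.z p / aeval L'.z q := by
      rw [← FTR_aeval L'.z σ hσ p, ← FTR_aeval L'.z σ hσ q, ← map_div₀, hpq,
        AlgEquiv.apply_symm_apply]
    rw [hf]
    exact div_mem (hmem p) (hmem q)
  · intro v hv
    obtain ⟨P, hP, hvP⟩ := (hTPR K n L' σ hσ v).1 hv
    obtain ⟨q, hq, _, hqP⟩ := hP2 P hP.1
    have hqv : q = v := by
      apply FTR_ext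
      funext f
      have h1 := hqP (σ.symm f)
      have h2 := hvP (σ.symm f)
      rw [AlgEquiv.apply_symm_apply] at h1 h2
      rw [h1, h2]
    rw [← hqv]
    rcases hV q hq with h | h
    · exact h
    · exfalso
      have hT := hmono q (hb q h)
      obtain ⟨_, m, _, hm⟩ := hT P hP.1.ne_zero
      have h0 : ∀ j, q.ord (L'.z j) = 0 := by
        intro j
        rw [← hσ j, hqP]
        have hX : (X j : Pool.Agent.Helper53.CX.Pn n) ≠ 0 := X_ne_zero j
        show Pool.Agent.Helper53.CX.padOrd P (algebraMap (Pool.Agent.Helper53.CX.Pn n)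
          (Pool.Agent.Helper53.CX.Kn n) (X j)) = 0
        rw [FTR_pad P hP.1 _ hX]
        have h3 := (Pool.Agent.Helper53.CX.hPad n P hP.1).2.2 (X j) hX
        have h4 : ¬ P ∣ X j := by
          intro hd
          have hirr : Irreducible (X j : Pool.Agent.Helper53.CX.Pn n) :=
            (MvPolynomial.X_prime (R := ℂ) (i := j)).irreducible
          exact hP.2 j (hP.1.associated_of_dvd hirr hd)
        have h5 : ¬ 1 ≤ multiplicity P (X j : Pool.Agent.Helper53.CX.Pn n) := fun h => h4 (h3.2 h)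
        have h6 : multiplicity P (X j : Pool.Agent.Helper53.CX.Pn n) = 0 := by omega
        rw [h6]
        rfl
      simp only [h0, zero_mul, Finset.sum_const_zero] at hm
      rw [← FTR_aeval L'.z σ hσ P, hqP, FTR_pad P hP.1 P hP.1.ne_zero] at hm
      have h7 := ((Pool.Agent.Helper53.CX.hPad n P hP.1).2.2 P hP.1.ne_zero).1 dvd_rfl
      omega
  · intro v hv
    rcases hS v hv with h | h
    · by_cases ha : ∃ a, v = Fr.pr a
      · obtain ⟨a, ha⟩ := ha
        right
        exact ⟨_, hmono v (by rw [ha]; exact Fr.omega_pr a)⟩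
      · left
        have ha' : ∀ a, v ≠ Fr.pr a := fun a hva => ha ⟨a, hva⟩
        obtain ⟨P, hP, hvP⟩ := hP1 v h (fun k => ha' _)
        rw [hTPR K n L' σ hσ v]
        refine ⟨P, ⟨hP, ?_⟩, hvP⟩
        intro j hass
        have h1 := Fr.div_other (e j) v h (ha' _)
        have h2 := Fr.div_other (β (Fr.bl (e j))) v h (ha' _)
        rw [hβ] at h2
        have hg1 := Fr.ne (e j)
        have hg2 := Fr.ne (β (Fr.bl (e j)))
        have hz : L'.z j ≠ 0 := by
          rw [hC.z_eq j]
          exact div_ne_zero hg1 hg2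
        have h3 : Fr.g (e j) = L'.z j * Fr.g (β (Fr.bl (e j))) := by
          rw [hC.z_eq j, div_mul_cancel₀ _ hg2]
        have h4 := v.ord_mul _ _ hz hg2
        rw [← h3] at h4
        have h5 : v.ord (L'.z j) = 0 := by omega
        have hX : (X j : Pool.Agent.Helper53.CX.Pn n) ≠ 0 := X_ne_zero j
        have h6 : v.ord (L'.z j) =
            (multiplicity P (X j : Pool.Agent.Helper53.CX.Pn n) : ℤ) := by
          rw [← hσ j, hvP]
          exact FTR_pad P hP _ hX
        have h7 := ((Pool.Agent.Helper53.CX.hPad n P hP).2.2 (X j) hX).1 hass.dvd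
        omega
    · right
      exact ⟨_, hmono v (hb v h)⟩

end Pool.Agent.Helper62.GX
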